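import Pool.Agent.MP_51245c_nt.Large

/-!
# MP_51245c_nt: there are exactly 27 pairs

`H(m,n)` is the Hessenberg family of the problem. We prove that there are exactly `27` pairs
`(m,n)` for which `H(m,n)` is NRS and not reduced.
-/

set_option autoImplicit false

namespace Pool.Agent.Results.MP_51245c_nt.Exactly27

open Matrix Pool.Agent.MP_51245c_nt

/-- The matrix `H(m,n)`. -/
def H (m n : ℤ) : Matrix (Fin 3) (Fin 3) ℤ :=
  !![1, 1, m + n; 2, 1, 2 * m + n; 0, 3, 3 * n - 1]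

/-- A `3 × 3` matrix is upper Hessenberg if its `(3,1)` entry is zero. -/
def IsHessenberg (M : Matrix (Fin 3) (Fin 3) ℤ) : Prop := M 2 0 = 0

/-- The Hessenberg complexity `a₂₁ ^ 2 * |a₃₂|`. -/
def complexity (M : Matrix (Fin 3) (Fin 3) ℤ) : ℤ := (M 1 0) ^ 2 * |M 2 1|

/-- Integer conjugacy: `M' = X M X⁻¹` for some `X` in `GL(3, ℤ)`. -/
def IntegerConjugate (M M' : Matrix (Fin 3) (Fin 3) ℤ) : Prop :=
  ∃ X : GL (Fin 3) ℤ, M' = (X : Matrix (Fin 3) (Fin 3) ℤ) * M *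
    ((X⁻¹ : GL (Fin 3) ℤ) : Matrix (Fin 3) (Fin 3) ℤ)

/-- `M` is reduced if it has minimal complexity among all the integer upper Hessenberg matrices
which are integer conjugate to it. -/
def IsReduced (M : Matrix (Fin 3) (Fin 3) ℤ) : Prop :=
  ∀ M' : Matrix (Fin 3) (Fin 3) ℤ, IsHessenberg M' → IntegerConjugate M M' →
    complexity M ≤ complexity M'

/-- A matrix of `SL(3, ℤ)` is NRS if its characteristic polynomial is irreducible over `ℚ` and has
negative discriminant. -/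
def IsNRS (M : Matrix (Fin 3) (Fin 3) ℤ) : Prop :=
  M.det = 1 ∧ Irreducible (M.charpoly.map (Int.castRingHom ℚ)) ∧ M.charpoly.discr < 0

/-- The twenty-seven exceptional pairs. -/
def E : Finset (ℤ × ℤ) :=
  {(0, 1), (1, 2), (0, 2), (2, 3), (1, 3), (0, 3), (2, 4), (1, 4), (3, 5), (1, 5), (2, 8), (16, 27), (10, 27), (-1, 0), (-2, -1), (-1, 1), (-3, -2), (-2, 0), (-3, -1), (-2, 1), (-4, -2), (-2, 2), (-5, -3), (-6, -3), (-8, -4), (-9, 5), (-21, -7)}

theorem card_E : E.card = 27 := by decide +kernel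

theorem det_H (m n : ℤ) : (H m n).det = 1 := by
  simp [H, Matrix.det_fin_three]
  ring

open Polynomial in
theorem charpoly_H (m n : ℤ) : (H m n).charpoly =
    X ^ 3 + C (-(3 * n + 1)) * X ^ 2 + C (3 * n - 6 * m - 3) * X + C (-1) := by
  simp only [Matrix.charpoly, Matrix.charmatrix, H, Matrix.det_fin_three]
  simp
  ring

open Polynomial in
theorem discr_cubic (a b c : ℤ) :
    (X ^ 3 + C a * X ^ 2 + C b * X + C c : ℤ[X]).discr
      = a ^ 2 * b ^ 2 - 4 * b ^ 3 - 4 * a ^ 3 * c - 27 * c ^ 2 + 18 * a * b * c := by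
  have hdeg : (X ^ 3 + C a * X ^ 2 + C b * X + C c : ℤ[X]).degree = 3 := by
    compute_degree!
  have h3 : (X ^ 3 + C a * X ^ 2 + C b * X + C c : ℤ[X]).coeff 3 = 1 := by
    simp only [coeff_add, coeff_C_mul, coeff_X_pow, coeff_X, coeff_C]
    norm_num
  have h2 : (X ^ 3 + C a * X ^ 2 + C b * X + C c : ℤ[X]).coeff 2 = a := by
    simp only [coeff_add, coeff_C_mul, coeff_X_pow, coeff_X, coeff_C]
    norm_num
  have h1 : (X ^ 3 + C a * X ^ 2 + C b * X + C c : ℤ[X]).coeff 1 = b := by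
    simp only [coeff_add, coeff_C_mul, coeff_X_pow, coeff_X, coeff_C]
    norm_num
  have h0 : (X ^ 3 + C a * X ^ 2 + C b * X + C c : ℤ[X]).coeff 0 = c := by
    simp
  rw [discr_of_degree_eq_three hdeg, h0, h1, h2, h3]
  ring

theorem discr_H (m n : ℤ) : (H m n).charpoly.discr =
    (3 * n + 1) ^ 2 * (3 * n - 6 * m - 3) ^ 2 - 4 * (3 * n - 6 * m - 3) ^ 3
      - 4 * (3 * n + 1) ^ 3 + 18 * (3 * n + 1) * (3 * n - 6 * m - 3) - 27 := by
  rw [charpoly_H, discr_cubic]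
  ring

open Polynomial in
/-- irreducibility criterion -/
theorem irreducible_cubic {T S : ℤ} (h1 : T ≠ S) (h2 : T + S + 2 ≠ 0) :
    Irreducible ((X ^ 3 + C (-T) * X ^ 2 + C S * X + C (-1) : ℤ[X]).map (Int.castRingHom ℚ)) := by
  have hmonic : (X ^ 3 + C (-T) * X ^ 2 + C S * X + C (-1) : ℤ[X]).Monic := by
    monicity!
  have hdeg : ((X ^ 3 + C (-T) * X ^ 2 + C S * X + C (-1) : ℤ[X]).map
      (Int.castRingHom ℚ)).natDegree = 3 := by
    rw [hmonic.natDegree_map]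
    compute_degree!
  rw [Polynomial.irreducible_iff_roots_eq_zero_of_degree_le_three (by omega) (by omega)]
  rw [Multiset.eq_zero_iff_forall_notMem]
  intro q hq
  have hroot := (Polynomial.mem_roots'.mp hq).2
  have hint : IsIntegral ℤ q := by
    refine ⟨_, hmonic, ?_⟩
    rw [Polynomial.IsRoot, Polynomial.eval_map] at hroot
    exact hroot
  obtain ⟨y, hy⟩ := IsIntegrallyClosed.isIntegral_iff.mp hint
  have hy' : q = (y : ℚ) := by simpa using hy.symm
  rw [hy'] at hroot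
  simp at hroot
  have hyz : y ^ 3 + -(T * y ^ 2) + S * y + -1 = 0 := by exact_mod_cast hroot
  have hunit : y * (y ^ 2 - T * y + S) = 1 := by linarith
  have hy1 : y = 1 ∨ y = -1 := Int.isUnit_iff.mp (IsUnit.of_mul_eq_one _ hunit)
  rcases hy1 with rfl | rfl
  · apply h1
    linarith
  · apply h2
    linarith

open Polynomial in
/-- if the characteristic polynomial is irreducible then `-1` is not a root -/
theorem ne_of_irreducible {T S : ℤ}
    (h : Irreducible ((X ^ 3 + C (-T) * X ^ 2 + C S * X + C (-1) : ℤ[X]).map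
      (Int.castRingHom ℚ))) : T + S + 2 ≠ 0 := by
  intro h2
  have hmonic : (X ^ 3 + C (-T) * X ^ 2 + C S * X + C (-1) : ℤ[X]).Monic := by
    monicity!
  have hdeg : ((X ^ 3 + C (-T) * X ^ 2 + C S * X + C (-1) : ℤ[X]).map
      (Int.castRingHom ℚ)).natDegree = 3 := by
    rw [hmonic.natDegree_map]
    compute_degree!
  rw [Polynomial.irreducible_iff_roots_eq_zero_of_degree_le_three (by omega) (by omega)] at h
  rw [Multiset.eq_zero_iff_forall_notMem] at h
  apply h (-1)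
  rw [Polynomial.mem_roots']
  refine ⟨?_, ?_⟩
  · intro h0
    rw [h0] at hdeg
    simp at hdeg
  · have h2q : (T : ℚ) + S + 2 = 0 := by exact_mod_cast h2
    simp
    linarith

/-- the matrix with rows `v, M v, M (M v)` -/
def K (M : Matrix (Fin 3) (Fin 3) ℤ) (v : Fin 3 → ℤ) : Matrix (Fin 3) (Fin 3) ℤ :=
  Matrix.of ![v, M *ᵥ v, M *ᵥ (M *ᵥ v)]

theorem row_mul (Y : Matrix (Fin 3) (Fin 3) ℤ) (w : Fin 3 → ℤ) (j : Fin 3) :
    (Y *ᵥ w) j = ∑ k, w k * Yᵀ k j := by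
  simp [Matrix.mulVec, dotProduct, mul_comm]

theorem K_conj {M M' Y : Matrix (Fin 3) (Fin 3) ℤ} (h : M * Y = Y * M') (v : Fin 3 → ℤ) :
    K M (Y *ᵥ v) = K M' v * Yᵀ := by
  have e1 : M *ᵥ (Y *ᵥ v) = Y *ᵥ (M' *ᵥ v) := by
    rw [Matrix.mulVec_mulVec, h, Matrix.mulVec_mulVec]
  have e2 : M *ᵥ (M *ᵥ (Y *ᵥ v)) = Y *ᵥ (M' *ᵥ (M' *ᵥ v)) := by
    rw [e1, Matrix.mulVec_mulVec, h, ← Matrix.mulVec_mulVec]
  ext i j
  unfold K
  rw [e2, e1, Matrix.mul_apply]
  fin_cases i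
  · exact row_mul Y v j
  · exact row_mul Y (M' *ᵥ v) j
  · exact row_mul Y (M' *ᵥ (M' *ᵥ v)) j

theorem det_K_hess {M' : Matrix (Fin 3) (Fin 3) ℤ} (h : M' 2 0 = 0) :
    (K M' ![1, 0, 0]).det = (M' 1 0) ^ 2 * M' 2 1 := by
  simp [K, Matrix.det_fin_three, Matrix.mulVec, dotProduct, Fin.sum_univ_three,
    Matrix.mul_apply, h]
  ring

theorem det_K_H (m n x y z : ℤ) : 18 * (K (H m n) ![x, y, z]).det =
    NN (3 * n + 1) (3 * n - 6 * m - 3) (6 * x - 3 * y - (3 * n - 6 * m - 2) * z)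
      (3 * y + (3 * n - 1) * z) z := by
  simp [K, H, NN, Matrix.det_fin_three, dotProduct, Fin.sum_univ_three]
  ring

theorem NN_swap {A : Type} [CommRing A] (P R U W C : A) : NN P R U W C = NN R P U C W := by
  unfold NN
  ring

theorem memA : ∀ x ∈ excA, ((x.1 - 4 - x.2) / 6, (x.1 - 1) / 3) ∈ E := by decide +kernel

theorem memB : ∀ x ∈ excB, ((x.2 - 4 - x.1) / 6, (x.2 - 1) / 3) ∈ E := by decide +kernel

/-- the lower bound for the cubic form, away from the exceptional pairs -/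
theorem det_K_ge {m n : ℤ} (hN : IsNRS (H m n)) (hE : (m, n) ∉ E) (x y z : ℤ)
    (hv : ¬ (x = 0 ∧ y = 0 ∧ z = 0)) : 12 ≤ |(K (H m n) ![x, y, z]).det| := by
  obtain ⟨-, hirr, hdisc⟩ := hN
  rw [charpoly_H] at hirr
  rw [discr_H] at hdisc
  have h2 := ne_of_irreducible hirr
  by_contra hcon
  push Not at hcon
  set T : ℤ := 3 * n + 1 with hT
  set S : ℤ := 3 * n - 6 * m - 3 with hS
  have hform := det_K_H m n x y z
  rw [← hT, ← hS] at hform
  have hsmall : |NN T S (6 * x - 3 * y - (3 * n - 6 * m - 2) * z) (3 * y + (3 * n - 1) * z) z|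
      < 216 := by
    rw [← hform, abs_mul]
    norm_num
    linarith
  have hTS : T ≠ S := by omega
  rcases lt_or_gt_of_ne hTS with hlt | hgt
  · -- S > T
    rw [NN_swap] at hsmall
    refine no_bad (e := -1) (P := S) (R := T) ⟨Or.inr ⟨rfl, by omega, by omega⟩, by omega⟩ hlt
      (by omega) (by linarith) ?_ _ _ _ ⟨⟨?_, ?_, ?_⟩, ?_, hsmall⟩
    · rintro (⟨h, -⟩ | ⟨-, h⟩)
      · exact absurd h (by decide)
      · apply hE
        have h1 := memB _ h
        have e1 : (T - 4 - S) / 6 = m := by omega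
        have e2 : (T - 1) / 3 = n := by omega
        simp only [e1, e2] at h1
        exact h1
    · exact ⟨y + n * z, by ring⟩
    · exact ⟨2 * x - 2 * y + (1 - 2 * n + 2 * m) * z, by ring⟩
    · exact ⟨3 * x + 3 * m * z + z, by ring⟩
    · rintro ⟨a1, a2, a3⟩
      apply hv
      rw [a2] at a1 a3
      refine ⟨?_, ?_, a2⟩ <;> omega
  · refine no_bad (e := 1) (P := T) (R := S) ⟨Or.inl ⟨rfl, by omega, by omega⟩, by omega⟩ hgt
      (by omega) (by linarith) ?_ _ _ _ ⟨⟨?_, ?_, ?_⟩, ?_, hsmall⟩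
    · rintro (⟨-, h⟩ | ⟨h, -⟩)
      · apply hE
        have h1 := memA _ h
        have e1 : (T - 4 - S) / 6 = m := by omega
        have e2 : (T - 1) / 3 = n := by omega
        simp only [e1, e2] at h1
        exact h1
      · exact absurd h (by decide)
    · exact ⟨y + n * z, by ring⟩
    · exact ⟨2 * x - y + (1 - n + 2 * m) * z, by ring⟩
    · exact ⟨3 * x + 3 * m * z + z, by ring⟩
    · rintro ⟨a1, a2, a3⟩
      apply hv
      rw [a3] at a1 a2
      refine ⟨?_, ?_, a3⟩ <;> omega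

theorem complexity_H (m n : ℤ) : complexity (H m n) = 12 := by
  simp [complexity, H]

/-- away from the exceptional pairs the matrix is reduced -/
theorem reduced_of_notMem {m n : ℤ} (hN : IsNRS (H m n)) (hE : (m, n) ∉ E) :
    IsReduced (H m n) := by
  intro M' hM' ⟨X, hX⟩
  rw [complexity_H]
  set Y : Matrix (Fin 3) (Fin 3) ℤ := ((X⁻¹ : GL (Fin 3) ℤ) : Matrix (Fin 3) (Fin 3) ℤ) with hY
  have hXY : (X : Matrix (Fin 3) (Fin 3) ℤ) * Y = 1 := by
    rw [hY, ← Units.val_mul, mul_inv_cancel, Units.val_one]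
  have hYX : Y * (X : Matrix (Fin 3) (Fin 3) ℤ) = 1 := by
    rw [hY, ← Units.val_mul, inv_mul_cancel, Units.val_one]
  have hcomm : H m n * Y = Y * M' := by
    rw [hX, ← mul_assoc, ← mul_assoc, hYX, one_mul]
  have hdetY : |Y.det| = 1 := by
    have h1 : Y.det * (X : Matrix (Fin 3) (Fin 3) ℤ).det = 1 := by
      rw [← Matrix.det_mul, hYX, Matrix.det_one]
    have h2 : IsUnit Y.det := IsUnit.of_mul_eq_one _ h1
    rcases Int.isUnit_iff.mp h2 with h | h <;> rw [h] <;> norm_num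
  have hK := K_conj hcomm ![1, 0, 0]
  set v : Fin 3 → ℤ := Y *ᵥ ![1, 0, 0] with hv
  have hv3 : v = ![v 0, v 1, v 2] := by
    ext i
    fin_cases i <;> rfl
  have hv0 : ¬ (v 0 = 0 ∧ v 1 = 0 ∧ v 2 = 0) := by
    rintro ⟨a0, a1, a2⟩
    have hz : v = 0 := by
      rw [hv3, a0, a1, a2]
      ext i
      fin_cases i <;> rfl
    have h1 : (X : Matrix (Fin 3) (Fin 3) ℤ) *ᵥ v = ![1, 0, 0] := by
      rw [hv, Matrix.mulVec_mulVec, hXY, Matrix.one_mulVec]
    rw [hz, Matrix.mulVec_zero] at h1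
    have := congrFun h1 0
    simp at this
  have hge := det_K_ge hN hE (v 0) (v 1) (v 2) hv0
  rw [← hv3, hK, Matrix.det_mul, Matrix.det_transpose, abs_mul, hdetY, mul_one,
    det_K_hess hM', abs_mul, abs_pow, sq_abs] at hge
  exact hge

/-- a certificate for not being reduced -/
theorem not_reduced_of (m n : ℤ) (X Y M' : Matrix (Fin 3) (Fin 3) ℤ) (h1 : X * Y = 1)
    (h2 : Y * X = 1) (h3 : M' = X * H m n * Y) (h4 : M' 2 0 = 0) (h5 : complexity M' < 12) :
    ¬ IsReduced (H m n) := by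
  intro h
  have := h M' h4 ⟨⟨X, Y, h1, h2⟩, h3⟩
  rw [complexity_H] at this
  omega

theorem not_reduced_of_mem {m n : ℤ} (h : (m, n) ∈ E) : ¬ IsReduced (H m n) := by
  simp only [E, Finset.mem_insert, Finset.mem_singleton, Prod.mk.injEq] at h
  rcases h with ⟨rfl, rfl⟩ | ⟨rfl, rfl⟩ | ⟨rfl, rfl⟩ | ⟨rfl, rfl⟩ | ⟨rfl, rfl⟩ | ⟨rfl, rfl⟩ | ⟨rfl, rfl⟩ | ⟨rfl, rfl⟩ | ⟨rfl, rfl⟩ | ⟨rfl, rfl⟩ | ⟨rfl, rfl⟩ | ⟨rfl, rfl⟩ | ⟨rfl, rfl⟩ | ⟨rfl, rfl⟩ | ⟨rfl, rfl⟩ | ⟨rfl, rfl⟩ | ⟨rfl, rfl⟩ | ⟨rfl, rfl⟩ | ⟨rfl, rfl⟩ | ⟨rfl, rfl⟩ | ⟨rfl, rfl⟩ | ⟨rfl, rfl⟩ | ⟨rfl, rfl⟩ | ⟨rfl, rfl⟩ | ⟨rfl, rfl⟩ | ⟨rfl, rfl⟩ | ⟨rfl, rfl⟩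
  · exact not_reduced_of (0) (1) !![0, 0, 1; 0, -1, -1; 1, 0, 0]
      !![0, 0, 1; -1, -1, 0; 1, 0, 0]
      !![-1, -3, 0; 1, 4, -2; 0, -1, 1]
      (by decide +kernel) (by decide +kernel) (by decide +kernel) (by decide +kernel)
      (by decide +kernel)
  · exact not_reduced_of (1) (2) !![0, 0, 1; -1, 0, -1; 2, -1, 0]
      !![-1, -1, 0; -2, -2, -1; 1, 0, 0]
      !![-1, -6, -3; 1, 9, 4; 0, -2, -1]
      (by decide +kernel) (by decide +kernel) (by decide +kernel) (by decide +kernel)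
      (by decide +kernel)
  · exact not_reduced_of (0) (2) !![0, 0, 1; 1, 0, 0; -3, 1, 1]
      !![0, 1, 0; -1, 3, 1; 1, 0, 0]
      !![2, 9, 3; 1, 4, 1; 0, 2, 1]
      (by decide +kernel) (by decide +kernel) (by decide +kernel) (by decide +kernel)
      (by decide +kernel)
  · exact not_reduced_of (2) (3) !![0, 0, 1; 1, -1, -1; 3, -2, 0]
      !![-2, -2, 1; -3, -3, 1; 1, 0, 0]
      !![-1, -9, 3; 1, 11, -4; 0, -1, 0]
      (by decide +kernel) (by decide +kernel) (by decide +kernel) (by decide +kernel)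
      (by decide +kernel)
  · exact not_reduced_of (1) (3) !![0, 0, 1; -1, 0, -1; 3, -1, 0]
      !![-1, -1, 0; -3, -3, -1; 1, 0, 0]
      !![-1, -9, -3; 1, 13, 4; 0, -7, -2]
      (by decide +kernel) (by decide +kernel) (by decide +kernel) (by decide +kernel)
      (by decide +kernel)
  · exact not_reduced_of (0) (3) !![0, 0, 1; -3, 1, 1; -7, 2, 2]
      !![0, 2, -1; -1, 7, -3; 1, 0, 0]
      !![5, 21, -9; 1, 5, -2; 0, 1, 0]
      (by decide +kernel) (by decide +kernel) (by decide +kernel) (by decide +kernel)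
      (by decide +kernel)
  · exact not_reduced_of (2) (4) !![0, 0, 1; -1, 0, -2; 2, -1, 0]
      !![-2, -1, 0; -4, -2, -1; 1, 0, 0]
      !![-1, -6, -3; 2, 15, 7; 0, -2, -1]
      (by decide +kernel) (by decide +kernel) (by decide +kernel) (by decide +kernel)
      (by decide +kernel)
  · exact not_reduced_of (1) (4) !![0, 0, 1; -2, 1, 1; -7, 3, 2]
      !![-1, 3, -1; -3, 7, -2; 1, 0, 0]
      !![2, 21, -6; 1, 14, -4; 0, 11, -3]
      (by decide +kernel) (by decide +kernel) (by decide +kernel) (by decide +kernel)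
      (by decide +kernel)
  · exact not_reduced_of (3) (5) !![0, 0, 1; -2, 1, -1; 5, -3, 0]
      !![-3, -3, -1; -5, -5, -2; 1, 0, 0]
      !![-1, -15, -6; 1, 20, 8; 0, -7, -3]
      (by decide +kernel) (by decide +kernel) (by decide +kernel) (by decide +kernel)
      (by decide +kernel)
  · exact not_reduced_of (1) (5) !![0, 0, 1; 2, -1, -1; 7, -3, -1]
      !![-2, -3, 1; -5, -7, 2; 1, 0, 0]
      !![-1, -21, 6; 1, 14, -4; 0, -10, 3]
      (by decide +kernel) (by decide +kernel) (by decide +kernel) (by decide +kernel)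
      (by decide +kernel)
  · exact not_reduced_of (2) (8) !![0, 0, 1; 2, -1, -2; 5, -2, -1]
      !![-3, -2, 1; -8, -5, 2; 1, 0, 0]
      !![-1, -15, 6; 2, 25, -10; 0, -2, 1]
      (by decide +kernel) (by decide +kernel) (by decide +kernel) (by decide +kernel)
      (by decide +kernel)
  · exact not_reduced_of (16) (27) !![0, 0, 1; -9, 5, 0; 25, -14, -3]
      !![-15, -14, -5; -27, -25, -9; 1, 0, 0]
      !![-1, -75, -27; 1, 86, 31; 0, -8, -3]
      (by decide +kernel) (by decide +kernel) (by decide +kernel) (by decide +kernel)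
      (by decide +kernel)
  · exact not_reduced_of (10) (27) !![0, 0, 1; 11, -5, -3; 31, -14, -6]
      !![-12, -14, 5; -27, -31, 11; 1, 0, 0]
      !![-1, -93, 33; 1, 79, -28; 0, -11, 4]
      (by decide +kernel) (by decide +kernel) (by decide +kernel) (by decide +kernel)
      (by decide +kernel)
  · exact not_reduced_of (-1) (0) !![1, 0, 0; -2, 0, 1; 3, -1, -1]
      !![1, 0, 0; 1, -1, -1; 2, 1, 0]
      !![0, -2, -1; 1, 0, -1; 0, 1, 1]
      (by decide +kernel) (by decide +kernel) (by decide +kernel) (by decide +kernel)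
      (by decide +kernel)
  · exact not_reduced_of (-2) (-1) !![0, 0, -1; 0, 1, -1; -1, 0, 1]
      !![-1, 0, -1; -1, 1, 0; -1, 0, 0]
      !![-1, -3, 0; 1, -2, -2; 0, 2, 1]
      (by decide +kernel) (by decide +kernel) (by decide +kernel) (by decide +kernel)
      (by decide +kernel)
  · exact not_reduced_of (-1) (1) !![0, 0, -1; 0, 1, 1; -1, -1, 0]
      !![-1, -1, -1; 1, 1, 0; -1, 0, 0]
      !![-1, -3, 0; 1, 2, -2; 0, 1, 3]
      (by decide +kernel) (by decide +kernel) (by decide +kernel) (by decide +kernel)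
      (by decide +kernel)
  · exact not_reduced_of (-3) (-2) !![0, 0, -1; -1, 0, 2; 0, -1, 2]
      !![-2, -1, 0; -2, 0, -1; -1, 0, 0]
      !![-1, 0, 3; 1, 1, -5; 0, 2, -5]
      (by decide +kernel) (by decide +kernel) (by decide +kernel) (by decide +kernel)
      (by decide +kernel)
  · exact not_reduced_of (-2) (0) !![0, 0, -1; -1, 0, 2; 0, -1, 0]
      !![-2, -1, 0; 0, 0, -1; -1, 0, 0]
      !![-1, 0, 3; 2, 1, -5; 0, 2, 1]
      (by decide +kernel) (by decide +kernel) (by decide +kernel) (by decide +kernel)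
      (by decide +kernel)
  · exact not_reduced_of (-3) (-1) !![0, 0, -1; 0, 1, -1; -1, -1, 3]
      !![-2, -1, -1; -1, 1, 0; -1, 0, 0]
      !![-1, -3, 0; 1, -4, -2; 0, 10, 3]
      (by decide +kernel) (by decide +kernel) (by decide +kernel) (by decide +kernel)
      (by decide +kernel)
  · exact not_reduced_of (-2) (1) !![0, 0, -1; 0, 1, 1; -1, -2, 0]
      !![-2, -2, -1; 1, 1, 0; -1, 0, 0]
      !![-1, -3, 0; 1, 0, -2; 0, 7, 5]
      (by decide +kernel) (by decide +kernel) (by decide +kernel) (by decide +kernel)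
      (by decide +kernel)
  · exact not_reduced_of (-4) (-2) !![0, 0, -1; -1, 0, 3; 0, -1, 2]
      !![-3, -1, 0; -2, 0, -1; -1, 0, 0]
      !![-1, 0, 3; 2, 1, -8; 0, 2, -5]
      (by decide +kernel) (by decide +kernel) (by decide +kernel) (by decide +kernel)
      (by decide +kernel)
  · exact not_reduced_of (-2) (2) !![0, 0, -1; 0, 1, 2; -1, -1, 0]
      !![-2, -1, -1; 2, 1, 0; -1, 0, 0]
      !![-1, -3, 0; 2, 5, -2; 0, 1, 3]
      (by decide +kernel) (by decide +kernel) (by decide +kernel) (by decide +kernel)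
      (by decide +kernel)
  · exact not_reduced_of (-5) (-3) !![0, 0, -1; 0, -1, 3; 1, -3, 5]
      !![-4, -3, 1; -3, -1, 0; -1, 0, 0]
      !![-1, 3, 0; 1, -2, -2; 0, 2, -5]
      (by decide +kernel) (by decide +kernel) (by decide +kernel) (by decide +kernel)
      (by decide +kernel)
  · exact not_reduced_of (-6) (-3) !![0, 0, -1; 0, -1, 3; 1, -4, 7]
      !![-5, -4, 1; -3, -1, 0; -1, 0, 0]
      !![-1, 3, 0; 1, 0, -2; 0, 10, -7]
      (by decide +kernel) (by decide +kernel) (by decide +kernel) (by decide +kernel)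
      (by decide +kernel)
  · exact not_reduced_of (-8) (-4) !![0, 0, -1; 0, -1, 4; 1, -3, 5]
      !![-7, -3, 1; -4, -1, 0; -1, 0, 0]
      !![-1, 3, 0; 2, -5, -2; 0, 2, -5]
      (by decide +kernel) (by decide +kernel) (by decide +kernel) (by decide +kernel)
      (by decide +kernel)
  · exact not_reduced_of (-9) (5) !![0, 0, -1; 1, 4, 10; -3, -11, -25]
      !![-10, -11, -4; 5, 3, 1; -1, 0, 0]
      !![-1, -9, -3; 1, 6, -1; 0, 8, 11]
      (by decide +kernel) (by decide +kernel) (by decide +kernel) (by decide +kernel)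
      (by decide +kernel)
  · exact not_reduced_of (-21) (-7) !![0, 0, -1; 1, -6, 23; 3, -17, 62]
      !![-19, -17, 6; -7, -3, 1; -1, 0, 0]
      !![-1, 9, -3; 1, -5, -2; 0, 11, -14]
      (by decide +kernel) (by decide +kernel) (by decide +kernel) (by decide +kernel)
      (by decide +kernel)

theorem nrs_of_mem {m n : ℤ} (h : (m, n) ∈ E) : IsNRS (H m n) := by
  refine ⟨det_H m n, ?_, ?_⟩
  · rw [charpoly_H]
    apply irreducible_cubic
    · omega
    · simp only [E, Finset.mem_insert, Finset.mem_singleton, Prod.mk.injEq] at h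
      omega
  · rw [discr_H]
    simp only [E, Finset.mem_insert, Finset.mem_singleton, Prod.mk.injEq] at h
    rcases h with ⟨rfl, rfl⟩ | ⟨rfl, rfl⟩ | ⟨rfl, rfl⟩ | ⟨rfl, rfl⟩ | ⟨rfl, rfl⟩ | ⟨rfl, rfl⟩ | ⟨rfl, rfl⟩ | ⟨rfl, rfl⟩ | ⟨rfl, rfl⟩ | ⟨rfl, rfl⟩ | ⟨rfl, rfl⟩ | ⟨rfl, rfl⟩ | ⟨rfl, rfl⟩ | ⟨rfl, rfl⟩ | ⟨rfl, rfl⟩ | ⟨rfl, rfl⟩ | ⟨rfl, rfl⟩ | ⟨rfl, rfl⟩ | ⟨rfl, rfl⟩ | ⟨rfl, rfl⟩ | ⟨rfl, rfl⟩ | ⟨rfl, rfl⟩ | ⟨rfl, rfl⟩ | ⟨rfl, rfl⟩ | ⟨rfl, rfl⟩ | ⟨rfl, rfl⟩ | ⟨rfl, rfl⟩ <;> norm_num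

/-- There are exactly `27` pairs `(m,n)` such that `H(m,n)` is NRS and not reduced. -/
theorem result :
    {p : ℤ × ℤ | IsNRS (H p.1 p.2) ∧ ¬ IsReduced (H p.1 p.2)}.encard = 27 := by
  have : {p : ℤ × ℤ | IsNRS (H p.1 p.2) ∧ ¬ IsReduced (H p.1 p.2)} = (E : Set (ℤ × ℤ)) := by
    ext ⟨m, n⟩
    simp only [Set.mem_ofPred_eq, Finset.mem_coe]
    constructor
    · rintro ⟨h1, h2⟩
      by_contra h3
      exact h2 (reduced_of_notMem h1 h3)
    · intro h
      exact ⟨nrs_of_mem h, not_reduced_of_mem h⟩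
  rw [this, Set.encard_coe_eq_coe_finsetCard, card_E]
  rfl

end Pool.Agent.Results.MP_51245c_nt.Exactly27
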